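import Pool.Agent.Helper61.CP.GRD1

namespace Pool.Agent.Helper56.CP

open Finset

theorem st_GRD : ST_GRD := by
  classical
  intro w z A u hw hwz hA hcard
  have hOPmono : OP w ⊆ OP z := by
    intro l hl
    obtain ⟨h1, h2⟩ := mem_filter.1 hl
    obtain ⟨h3, h4⟩ := mem_Icc.1 h1
    exact mem_filter.2 ⟨mem_Icc.2 ⟨h3, h4.trans hwz⟩, h2⟩
  obtain ⟨b, hb⟩ := st_GRD1 (OP w) A u
    (fun l hl => ⟨(mem_filter.1 hl).2, (mem_Icc.1 (mem_filter.1 hl).1).1⟩)
    (fun l hl => hA l (hOPmono hl))
  set B := A.filter (fun a => ∀ l ∈ OP w, a % l ≠ b l % l) with hB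
  have hBc : B.card ≤ (OP z \ OP w).card := by
    rw [card_sdiff_of_subset hOPmono]
    have h1 : (B.card : ℝ) ≤ ((OP z).card : ℝ) - (OP w).card := by
      refine hb.trans ?_
      have : (A.card : ℝ) * ∏ l ∈ OP w, (1 - 1 / ((l : ℝ) - 1)) = A.card * cw w := rfl
      rw [this]
      exact hcard
    rw [← Nat.cast_sub (card_le_card hOPmono)] at h1
    exact_mod_cast h1
  obtain ⟨T, hT, hTc⟩ := exists_subset_card_eq hBc
  let e : T ≃ B := Finset.equivOfCardEq hTc
  let c : ℕ → ℕ := fun l => if l = 2 then 1 else if l ∈ OP w then b l else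
    if h : l ∈ T then ((e ⟨l, h⟩ : B) : ℕ) else 0
  have hpr : ∀ l ∈ insert 2 (OP z), l.Prime := by
    intro l hl
    rcases mem_insert.1 hl with rfl | hl
    · exact Nat.prime_two
    · exact (mem_filter.1 hl).2
  obtain ⟨r, hr⟩ := Nat.chineseRemainderOfFinset c id (insert 2 (OP z))
    (fun l hl => (hpr l hl).ne_zero)
    (by
      intro l hl m hm hlm
      exact (Nat.coprime_primes (hpr l hl) (hpr m hm)).2 hlm)
  refine ⟨r, ?_, ?_⟩
  · have h2 := hr 2 (mem_insert_self _ _)
    have hc2 : c 2 = 1 := by simp [c]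
    rw [hc2] at h2
    simp only [id] at h2
    rw [Nat.odd_iff]
    exact h2
  · intro a ha
    have h3 : ∀ l ∈ OP z, 3 ≤ l := fun l hl => (mem_Icc.1 (mem_filter.1 hl).1).1
    by_cases haB : a ∈ B
    · let l := e.symm ⟨a, haB⟩
      have hlT : (l : ℕ) ∈ T := l.2
      have hl1 := mem_sdiff.1 (hT hlT)
      refine ⟨l, hl1.1, ?_⟩
      have h4 := hr l (mem_insert_of_mem hl1.1)
      have h5 := h3 l hl1.1
      have hcl : c l = a := by
        simp only [c]
        rw [if_neg (by omega), if_neg hl1.2, dif_pos hlT]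
        have : (⟨(l : ℕ), hlT⟩ : T) = l := rfl
        rw [this]
        simp [l]
      rw [hcl] at h4
      exact h4.symm
    · have : ∃ l ∈ OP w, a % l = b l % l := by
        by_contra hcon
        push Not at hcon
        exact haB (mem_filter.2 ⟨ha, hcon⟩)
      obtain ⟨l, hl, hal⟩ := this
      refine ⟨l, hOPmono hl, ?_⟩
      have h4 := hr l (mem_insert_of_mem (hOPmono hl))
      have h5 := h3 l (hOPmono hl)
      have hcl : c l = b l := by
        simp only [c]
        rw [if_neg (by omega), if_pos hl]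
      rw [hcl] at h4
      rw [hal]
      exact h4.symm

end Pool.Agent.Helper56.CP
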