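import Mathlib
import Pool.Agent.Helper56.CP.Stmts
import Pool.Agent.Helper15.CP.AB
import Pool.Agent.Helper71.CP.M2

set_option autoImplicit false

namespace Pool.Agent.Helper61.CP

open Finset Filter Topology Pool.Agent.Helper56.CP

/-- `-log (1 - y) - y`. -/
noncomputable def phi (y : ℝ) : ℝ := -Real.log (1 - y) - y

lemma phi_nonneg {y : ℝ} (h1 : y < 1) : 0 ≤ phi y := by
  have := Real.log_le_sub_one_of_pos (show (0 : ℝ) < 1 - y by linarith)
  unfold phi
  linarith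

lemma phi_le {y : ℝ} (h0 : 0 ≤ y) (h1 : y ≤ 1 / 2) : phi y ≤ 2 * y ^ 2 := by
  have h2 := Real.one_sub_inv_le_log_of_pos (show (0 : ℝ) < 1 - y by linarith)
  unfold phi
  have h3 : (1 - y)⁻¹ ≤ 1 + y + 2 * y ^ 2 := by
    rw [inv_le_iff_one_le_mul₀ (by linarith)]
    nlinarith [mul_nonneg h0 h0, mul_nonneg (mul_nonneg h0 h0) (show 0 ≤ 1 / 2 - y by linarith)]
  linarith

lemma phi_mono {y z : ℝ} (h0 : 0 ≤ y) (h1 : y ≤ z) (h2 : z < 1) : phi y ≤ phi z := by
  have h3 := Real.one_sub_inv_le_log_of_pos (show (0 : ℝ) < (1 - y) / (1 - z) from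
    div_pos (by linarith) (by linarith))
  rw [Real.log_div (by linarith) (by linarith), inv_div] at h3
  have h4 : (1 - z) / (1 - y) ≤ 1 - (z - y) := by
    rw [div_le_iff₀ (by linarith)]
    nlinarith [mul_nonneg h0 (show 0 ≤ z - y by linarith)]
  unfold phi
  linarith

lemma prime_inv_le (p : Nat.Primes) : ((p : ℕ) : ℝ)⁻¹ ≤ 1 / 2 := by
  have : (2 : ℝ) ≤ ((p : ℕ) : ℝ) := by exact_mod_cast p.2.two_le
  rw [one_div]
  exact inv_anti₀ (by norm_num) this

lemma prime_rpow_le (p : Nat.Primes) {s : ℝ} (hs : 1 < s) :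
    0 ≤ ((p : ℕ) : ℝ) ^ (-s) ∧ ((p : ℕ) : ℝ) ^ (-s) ≤ ((p : ℕ) : ℝ)⁻¹ := by
  have h2 : (2 : ℝ) ≤ ((p : ℕ) : ℝ) := by exact_mod_cast p.2.two_le
  refine ⟨by positivity, ?_⟩
  rw [← Real.rpow_neg_one]
  exact Real.rpow_le_rpow_of_exponent_le (by linarith) (by linarith)

lemma summable_phi_inv : Summable (fun p : Nat.Primes => phi ((p : ℕ) : ℝ)⁻¹) := by
  refine Summable.of_nonneg_of_le (fun p => phi_nonneg ?_) (fun p => ?_)
    ((Nat.Primes.summable_rpow.2 (show (-2 : ℝ) < -1 by norm_num)).mul_left 2)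
  · exact lt_of_le_of_lt (prime_inv_le p) (by norm_num)
  · refine (phi_le (by positivity) (prime_inv_le p)).trans ?_
    rw [Real.rpow_neg (by positivity)]
    norm_num

lemma log_zeta_le {s : ℝ} (hs : 1 < s) :
    (riemannZeta (s : ℂ)).re.log ≤ ∑' p : Nat.Primes, ((p : ℕ) : ℝ) ^ (-s) +
      ∑' p : Nat.Primes, phi ((p : ℕ) : ℝ)⁻¹ := by
  have hE := riemannZeta_eulerProduct_exp_log (s := (s : ℂ)) (by simpa using hs)
  have hsum : ∑' p : Nat.Primes, -Complex.log (1 - ((p : ℕ) : ℂ) ^ (-(s : ℂ))) =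
      ((∑' p : Nat.Primes, -Real.log (1 - ((p : ℕ) : ℝ) ^ (-s)) : ℝ) : ℂ) := by
    rw [Complex.ofReal_tsum]
    refine tsum_congr (fun p => ?_)
    obtain ⟨h0, h1⟩ := prime_rpow_le p hs
    have h2 := prime_inv_le p
    push_cast
    rw [Complex.ofReal_log (by linarith)]
    push_cast
    rw [Complex.ofReal_cpow (by positivity)]
    push_cast
    rfl
  rw [hsum, ← Complex.ofReal_exp] at hE
  rw [← hE, Complex.ofReal_re, Real.log_exp]
  have hS : Summable (fun p : Nat.Primes => ((p : ℕ) : ℝ) ^ (-s)) :=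
    Nat.Primes.summable_rpow.2 (by linarith)
  have hP : Summable (fun p : Nat.Primes => phi (((p : ℕ) : ℝ) ^ (-s))) := by
    refine Summable.of_nonneg_of_le (fun p => phi_nonneg ?_) (fun p => ?_) summable_phi_inv
    · exact lt_of_le_of_lt ((prime_rpow_le p hs).2.trans (prime_inv_le p)) (by norm_num)
    · exact phi_mono (prime_rpow_le p hs).1 (prime_rpow_le p hs).2
        (lt_of_le_of_lt (prime_inv_le p) (by norm_num))
  have e1 : ∑' p : Nat.Primes, -Real.log (1 - ((p : ℕ) : ℝ) ^ (-s)) =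
      ∑' p : Nat.Primes, (((p : ℕ) : ℝ) ^ (-s) + phi (((p : ℕ) : ℝ) ^ (-s))) := by
    refine tsum_congr (fun p => ?_)
    unfold phi
    ring
  rw [e1, hS.tsum_add hP]
  refine add_le_add le_rfl ?_
  refine hP.tsum_le_tsum (fun p => ?_) summable_phi_inv
  exact phi_mono (prime_rpow_le p hs).1 (prime_rpow_le p hs).2
    (lt_of_le_of_lt (prime_inv_le p) (by norm_num))

lemma const_ge (hab : ST_AB) (M : ℝ)
    (hM : Tendsto (fun n : ℕ => ∑ p ∈ PP n, 1 / (p : ℝ) - Real.log (Real.log n)) atTop (𝓝 M)) :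
    Real.eulerMascheroniConstant ≤ M + ∑' p : Nat.Primes, phi ((p : ℕ) : ℝ)⁻¹ := by
  refine le_of_forall_pos_le_add (fun ε hε => ?_)
  have h1 := hab M hM (ε / 2) (by linarith)
  have h2 := (log_riemannZeta_add_log_sub_isLittleO_ofReal).def (show (0 : ℝ) < ε / 2 by linarith)
  have h3 : ∀ᶠ s : ℝ in 𝓝[>] 1, 1 < s := self_mem_nhdsWithin
  obtain ⟨s, hs1, hs2, hs3⟩ := (h1.and (h2.and h3)).exists
  have h4 := log_zeta_le hs3
  simp only [norm_one, mul_one, Real.norm_eq_abs] at hs2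
  have h5 := (abs_le.1 hs2).1
  linarith

lemma tendsto_phi : Tendsto (fun n : ℕ => ∑ p ∈ PP n, phi ((p : ℝ)⁻¹)) atTop
    (𝓝 (∑' p : Nat.Primes, phi ((p : ℕ) : ℝ)⁻¹)) := by
  have hs : HasSum (fun p : Nat.Primes => phi ((p : ℕ) : ℝ)⁻¹)
    (∑' p : Nat.Primes, phi ((p : ℕ) : ℝ)⁻¹) := summable_phi_inv.hasSum
  have hs' : HasSum (Set.indicator {p : ℕ | p.Prime} (fun p : ℕ => phi ((p : ℝ)⁻¹)))
      (∑' p : Nat.Primes, phi ((p : ℕ) : ℝ)⁻¹) :=
    (hasSum_subtype_iff_indicator (s := {p : ℕ | p.Prime})).1 hs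
  have h1 := (hs'.tendsto_sum_nat).comp (tendsto_add_atTop_nat 1)
  refine h1.congr (fun n => ?_)
  simp only [Function.comp_apply, PP, Finset.sum_filter]
  refine Finset.sum_congr rfl (fun a _ => ?_)
  by_cases ha : a.Prime <;> simp [ha]

theorem m3_of (h2 : ST_M2) (hab : ST_AB) : ST_M3 := by
  obtain ⟨M, hM⟩ := h2
  have hc := const_ge hab M hM
  intro ε hε
  have ht := (hM.add tendsto_phi)
  have hlog : 0 < Real.log (1 + ε) := Real.log_pos (by linarith)
  have h1 := ht.eventually (eventually_gt_nhds (show (M + ∑' p : Nat.Primes, phi ((p : ℕ) : ℝ)⁻¹) -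
    Real.log (1 + ε) < M + ∑' p : Nat.Primes, phi ((p : ℕ) : ℝ)⁻¹ by linarith))
  filter_upwards [h1, eventually_ge_atTop 3] with n hn hn3
  have hprod : ∏ p ∈ PP n, (1 - 1 / (p : ℝ)) =
      Real.exp (- (∑ p ∈ PP n, 1 / (p : ℝ)) - ∑ p ∈ PP n, phi ((p : ℝ)⁻¹)) := by
    rw [← Finset.sum_neg_distrib, ← Finset.sum_sub_distrib, Real.exp_sum]
    refine Finset.prod_congr rfl (fun p hp => ?_)
    have hp2 : (2 : ℝ) ≤ p := by
      exact_mod_cast (Finset.mem_filter.1 hp).2.two_le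
    have : (p : ℝ)⁻¹ ≤ 1 / 2 := by
      rw [one_div]; exact inv_anti₀ (by norm_num) hp2
    have e : -(1 / (p : ℝ)) - phi ((p : ℝ)⁻¹) = Real.log (1 - (p : ℝ)⁻¹) := by
      unfold phi
      rw [one_div]
      ring
    rw [e, Real.exp_log (by linarith), one_div]
  have hl : 0 < Real.log n := by
    apply Real.log_pos
    have : (3 : ℝ) ≤ n := by exact_mod_cast hn3
    linarith
  rw [hprod]
  have e2 : (1 + ε) * Real.exp (-Real.eulerMascheroniConstant) / Real.log n =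
      Real.exp (Real.log (1 + ε) - Real.eulerMascheroniConstant - Real.log (Real.log n)) := by
    rw [Real.exp_sub, Real.exp_sub, Real.exp_log (by linarith), Real.exp_log hl, Real.exp_neg]
    rfl
  rw [e2, Real.exp_le_exp]
  linarith

theorem st_M3 : ST_M3 := m3_of Pool.Agent.Helper56.CP.st_M2 Pool.Agent.Helper15.CP.st_AB

end Pool.Agent.Helper61.CP
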