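import Pool.Agent.Helper56.CP.Stmts

namespace Pool.Agent.Helper56.CP

open Finset

theorem st_GRD1 : ST_GRD1 := by
  classical
  intro Q A u
  induction Q using Finset.induction_on with
  | empty =>
    intro _ _
    exact ⟨fun _ => 0, by simp⟩
  | insert l Q hl ih =>
    intro hQ hA
    obtain ⟨b, hb⟩ := ih (fun m hm => hQ m (mem_insert_of_mem hm))
      (fun m hm => hA m (mem_insert_of_mem hm))
    have hl3 : 3 ≤ l := (hQ l (mem_insert_self _ _)).2
    have hlA := hA l (mem_insert_self _ _)
    set A' := A.filter (fun a => ∀ m ∈ Q, a % m ≠ b m % m) with hA'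
    set T := (range l).erase (u % l) with hT
    have hlpos : 0 < l := by omega
    have hu : u % l < l := Nat.mod_lt _ hlpos
    have hTc : T.card = l - 1 := by
      rw [hT, card_erase_of_mem (mem_range.2 hu), card_range]
    have hTne : T.Nonempty := by
      rw [← card_pos, hTc]
      omega
    have hl1 : (0 : ℝ) < (l : ℝ) - 1 := by
      have : (3 : ℝ) ≤ l := by exact_mod_cast hl3
      linarith
    have hTr : (T.card : ℝ) = (l : ℝ) - 1 := by
      rw [hTc, Nat.cast_sub (by omega)]
      simp
    obtain ⟨c, hc, hcb⟩ := exists_le_card_fiber_of_nsmul_le_card_of_maps_to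
      (s := A') (t := T) (f := fun a => a % l) (b := (A'.card : ℝ) / ((l : ℝ) - 1))
      (by
        intro a ha
        rw [hT, mem_erase, mem_range]
        exact ⟨hlA a (mem_filter.1 ha).1, Nat.mod_lt _ hlpos⟩) hTne
      (by
        rw [nsmul_eq_mul, hTr, mul_div_cancel₀ _ hl1.ne'])
    refine ⟨Function.update b l c, ?_⟩
    have hcl : c < l := by
      have := (mem_erase.1 hc).2
      exact mem_range.1 this
    have hsub : A.filter (fun a => ∀ m ∈ insert l Q, a % m ≠ Function.update b l c m % m) ⊆
        A' \ A'.filter (fun a => a % l = c) := by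
      intro a ha
      obtain ⟨h1, h2⟩ := mem_filter.1 ha
      have h3 : ∀ m ∈ Q, a % m ≠ b m % m := by
        intro m hm
        have := h2 m (mem_insert_of_mem hm)
        rwa [Function.update_of_ne (by rintro rfl; exact hl hm)] at this
      have h4 : a % l ≠ c := by
        have := h2 l (mem_insert_self _ _)
        rwa [Function.update_self, Nat.mod_eq_of_lt hcl] at this
      exact mem_sdiff.2 ⟨mem_filter.2 ⟨h1, h3⟩, fun h => h4 (mem_filter.1 h).2⟩
    have hcard := card_le_card hsub
    rw [card_sdiff_of_subset (filter_subset _ _)] at hcard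
    have hle : (A'.filter (fun a => a % l = c)).card ≤ A'.card := card_le_card (filter_subset _ _)
    have hcard' : ((A.filter (fun a => ∀ m ∈ insert l Q,
        a % m ≠ Function.update b l c m % m)).card : ℝ) ≤
        (A'.card : ℝ) - ((A'.filter (fun a => a % l = c)).card : ℝ) := by
      rw [← Nat.cast_sub hle]
      exact_mod_cast hcard
    rw [prod_insert hl]
    have hfac : (0 : ℝ) ≤ 1 - 1 / ((l : ℝ) - 1) := by
      have h3 : (3 : ℝ) ≤ l := by exact_mod_cast hl3
      rw [sub_nonneg, div_le_one hl1]
      linarith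
    calc ((A.filter (fun a => ∀ m ∈ insert l Q,
          a % m ≠ Function.update b l c m % m)).card : ℝ)
        ≤ (A'.card : ℝ) - ((A'.filter (fun a => a % l = c)).card : ℝ) := hcard'
      _ ≤ (A'.card : ℝ) - (A'.card : ℝ) / ((l : ℝ) - 1) := by linarith
      _ = (1 - 1 / ((l : ℝ) - 1)) * A'.card := by ring
      _ ≤ (1 - 1 / ((l : ℝ) - 1)) * (A.card * ∏ m ∈ Q, (1 - 1 / ((m : ℝ) - 1))) :=
          mul_le_mul_of_nonneg_left hb hfac
      _ = _ := by ring

end Pool.Agent.Helper56.CP
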